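import Pool.Agent.H73.CTG.Stmts

/-!
# Board CTG, row ANG: the angle function
-/

set_option autoImplicit false

open Set Filter Topology

namespace Pool.CTG

theorem ang_sigma (z : ℂ) : ∃ σ : ℂ, ‖σ‖ = 1 ∧ z = (‖z‖ : ℂ) * σ := by
  by_cases hz : z = 0
  · exact ⟨1, norm_one, by rw [hz, norm_zero, Complex.ofReal_zero, zero_mul]⟩
  · have hn : (‖z‖ : ℂ) ≠ 0 := by exact_mod_cast (norm_ne_zero_iff.2 hz)
    refine ⟨z / ‖z‖, ?_, ?_⟩
    · rw [norm_div, Complex.norm_real, norm_norm, div_self (norm_ne_zero_iff.2 hz)]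
    · field_simp

theorem ang_conj (σ : ℂ) (h : ‖σ‖ = 1) : σ * (starRingEnd ℂ) σ = 1 := by
  rw [Complex.mul_conj, Complex.normSq_eq_norm_sq, h, one_pow, Complex.ofReal_one]

/-- the direction, for a unit vector -/
theorem ang_dir {n : ℕ} (y e : E n) (hy : ‖y‖ = 1) (he : ‖e‖ = 1) (B s : ℝ) (hB0 : 0 ≤ B)
    (hs : 0 < s) (hBs : B ^ 2 + s ^ 2 = 1) (σ : ℂ) (hσ : ‖σ‖ = 1)
    (hin : (inner ℂ y e : ℂ) = (B : ℂ) * σ) : ∃ u : E n, ‖u‖ = 1 ∧ (inner ℂ e u : ℂ) = 0 ∧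
      (inner ℂ y u : ℂ) = (s : ℂ) * σ := by
  have hsc : (s : ℂ) ≠ 0 := by exact_mod_cast hs.ne'
  have hBsc : (B : ℂ) ^ 2 + (s : ℂ) ^ 2 = 1 := by exact_mod_cast hBs
  have hin' : (inner ℂ e y : ℂ) = (B : ℂ) * (starRingEnd ℂ) σ := by
    rw [← inner_conj_symm, hin, map_mul, Complex.conj_ofReal]
  have hyy : (inner ℂ y y : ℂ) = 1 := by
    rw [inner_self_eq_norm_sq_to_K, hy]
    simp
  have hee : (inner ℂ e e : ℂ) = 1 := by
    rw [inner_self_eq_norm_sq_to_K, he]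
    simp
  have hσσ := ang_conj σ hσ
  have h1 : (inner ℂ e (((s : ℂ)⁻¹ * σ) • y - ((s : ℂ)⁻¹ * B) • e) : ℂ) = 0 := by
    rw [inner_sub_right, inner_smul_right, inner_smul_right, hin', hee]
    linear_combination ((s : ℂ)⁻¹ * B) * hσσ
  have h2 : (inner ℂ y (((s : ℂ)⁻¹ * σ) • y - ((s : ℂ)⁻¹ * B) • e) : ℂ) = (s : ℂ) * σ := by
    rw [inner_sub_right, inner_smul_right, inner_smul_right, hin, hyy]
    field_simp
    linear_combination σ * (-hBsc)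
  refine ⟨((s : ℂ)⁻¹ * σ) • y - ((s : ℂ)⁻¹ * B) • e, ?_, h1, h2⟩
  have h3 : (inner ℂ (((s : ℂ)⁻¹ * σ) • y - ((s : ℂ)⁻¹ * B) • e)
      (((s : ℂ)⁻¹ * σ) • y - ((s : ℂ)⁻¹ * B) • e) : ℂ) = 1 := by
    nth_rewrite 1 [inner_sub_left]
    rw [inner_smul_left, inner_smul_left, h1, h2, mul_zero, sub_zero, map_mul, map_inv₀,
      Complex.conj_ofReal]
    field_simp
    linear_combination hσσ
  generalize ((s : ℂ)⁻¹ * σ) • y - ((s : ℂ)⁻¹ * B) • e = X at h3 ⊢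
  have h4 : ‖X‖ ^ 2 = 1 := by
    rw [@norm_sq_eq_re_inner ℂ, h3]
    simp
  exact (pow_eq_one_iff_of_nonneg (norm_nonneg _) two_ne_zero).1 h4

theorem ANG_thm : ANGStmt := by
  intro n y w hy hw hlt
  have hw0 : 0 < ‖w‖ := norm_pos_iff.2 hw
  have hwc : (‖w‖ : ℂ) ≠ 0 := by exact_mod_cast hw0.ne'
  set B : ℝ := ‖(inner ℂ y w : ℂ)‖ / ‖w‖ with hB
  have hB0 : 0 ≤ B := by positivity
  have hB1 : B < 1 := (div_lt_one hw0).2 hlt
  set s : ℝ := √(1 - B ^ 2) with hs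
  have hs0 : 0 < 1 - B ^ 2 := by nlinarith
  have hsp : 0 < s := Real.sqrt_pos.2 hs0
  have hs2 : s ^ 2 = 1 - B ^ 2 := Real.sq_sqrt hs0.le
  obtain ⟨σ, hσ, hσ2⟩ := ang_sigma (inner ℂ y w)
  obtain ⟨e, he⟩ : ∃ e : E n, e = (‖w‖ : ℂ)⁻¹ • w := ⟨_, rfl⟩
  have hen : ‖e‖ = 1 := by
    rw [he, norm_smul, norm_inv, Complex.norm_real, norm_norm, inv_mul_cancel₀ hw0.ne']
  have hwe : w = (‖w‖ : ℂ) • e := by
    rw [he, smul_smul, mul_inv_cancel₀ hwc, one_smul]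
  have hin : (inner ℂ y e : ℂ) = (B : ℂ) * σ := by
    rw [he, inner_smul_right, hB]
    push_cast
    rw [← div_eq_inv_mul]
    nth_rewrite 1 [hσ2]
    ring
  obtain ⟨u, hu1, hu2, hu3⟩ := ang_dir y e hy hen B s hB0 hsp (by linarith) σ hσ hin
  have hA := Real.arccos_pos.2 hB1
  refine ⟨(‖w‖ : ℂ) • u, ?_, Real.arccos B, hA, ?_⟩
  · rw [norm_smul, Complex.norm_real, norm_norm, hu1, mul_one]
  intro τ hτ hτA
  have hv : w + (τ : ℂ) • (‖w‖ : ℂ) • u = (‖w‖ : ℂ) • (e + (τ : ℂ) • u) := by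
    calc w + (τ : ℂ) • (‖w‖ : ℂ) • u = (‖w‖ : ℂ) • e + (τ : ℂ) • (‖w‖ : ℂ) • u := by rw [← hwe]
      _ = (‖w‖ : ℂ) • (e + (τ : ℂ) • u) := by
          rw [smul_add, smul_comm (τ : ℂ) (‖w‖ : ℂ) u]
  have hn1 : ‖e + (τ : ℂ) • u‖ ^ 2 = 1 + τ ^ 2 := by
    have h1 := @norm_add_sq ℂ (E n) _ _ _ e ((τ : ℂ) • u)
    rw [inner_smul_right, hu2, mul_zero, hen, norm_smul, hu1, Complex.norm_real,
      Real.norm_eq_abs, mul_one, sq_abs] at h1
    rw [h1]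
    simp
  have hn2 : ‖e + (τ : ℂ) • u‖ = √(1 + τ ^ 2) := by
    rw [← hn1, Real.sqrt_sq (norm_nonneg _)]
  have hi : ‖(inner ℂ y (e + (τ : ℂ) • u) : ℂ)‖ = B + τ * s := by
    rw [inner_add_right, inner_smul_right, hin, hu3]
    have h1 : (B : ℂ) * σ + (τ : ℂ) * ((s : ℂ) * σ) = ((B + τ * s : ℝ) : ℂ) * σ := by
      push_cast
      ring
    rw [h1, norm_mul, hσ, mul_one, Complex.norm_real, Real.norm_eq_abs, abs_of_nonneg]
    positivity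
  rw [hv, inner_smul_right, norm_mul, norm_smul, Complex.norm_real, norm_norm, hi, hn2,
    mul_div_mul_left _ _ hw0.ne']
  have hcos : (B + τ * s) / √(1 + τ ^ 2) = Real.cos (Real.arccos B - Real.arctan τ) := by
    rw [Real.cos_sub, Real.cos_arccos (by linarith) hB1.le, Real.sin_arccos, ← hs,
      Real.cos_arctan, Real.sin_arctan]
    ring
  rw [hcos, Real.arccos_cos]
  · have h1 : Real.arctan τ ≤ τ := by
      have h3 := Real.lt_tan (Real.arctan_pos.2 hτ) (Real.arctan_lt_pi_div_two τ)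
      rw [Real.tan_arctan] at h3
      exact h3.le
    linarith
  · have h1 := Real.arccos_le_pi B
    have h2 : 0 < Real.arctan τ := Real.arctan_pos.2 hτ
    linarith

end Pool.CTG
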