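import Pool.Agent.H73.CTG.Stmts

/-!
# Board CTG, row GPR: from the gauge to its logarithm
-/

set_option autoImplicit false

open Set Filter Topology

namespace Pool.CTG

theorem gpr_one {n d : ℕ} {f : E n → E n} {H : E n → ℝ}
    (hom : ∀ (c : ℂ) (z : E n), f (c • z) = c ^ d • f z)
    (hH : ∀ (c : ℂ) (z : E n), H (c • z) = ‖c‖ ^ 2 * H z)
    (hm : MapsTo f {z | H z < 1} {z | H z < 1})
    (hK : ∀ K : Set (E n), K ⊆ {z | H z < 1} → IsCompact K → IsCompact ({z | H z < 1} ∩ f ⁻¹' K))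
    (z : E n) (hz : H z = 1) : H (f z) = 1 := by
  have hH0 : 0 ≤ H (f z) ∨ H (f z) < 0 := le_or_gt _ _
  -- `t z`
  have htz : ∀ t : ℝ, 0 ≤ t → H ((t : ℂ) • z) = t ^ 2 := by
    intro t _
    rw [hH, hz, mul_one, Complex.norm_real, Real.norm_eq_abs, sq_abs]
  have hftz : ∀ t : ℝ, 0 ≤ t → H (f ((t : ℂ) • z)) = t ^ (2 * d) * H (f z) := by
    intro t ht
    rw [hom, hH, norm_pow, Complex.norm_real, Real.norm_eq_abs, abs_of_nonneg ht, ← pow_mul,
      mul_comm d 2]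
  have hle : H (f z) ≤ 1 := by
    have h1 : Tendsto (fun t : ℝ => t ^ (2 * d) * H (f z)) (𝓝[<] 1) (𝓝 (1 ^ (2 * d) * H (f z))) :=
      ((continuous_pow (2 * d)).mul continuous_const).tendsto 1 |>.mono_left nhdsWithin_le_nhds
    rw [one_pow, one_mul] at h1
    refine le_of_tendsto h1 ?_
    have h2 : ∀ᶠ t : ℝ in 𝓝[<] 1, t ∈ Ioo (0 : ℝ) 1 := Ioo_mem_nhdsLT one_pos
    filter_upwards [h2] with t ht
    have h3 : (t : ℂ) • z ∈ {z | H z < 1} := by
      show H ((t : ℂ) • z) < 1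
      rw [htz t ht.1.le]
      nlinarith [ht.1, ht.2]
    have h4 : H (f ((t : ℂ) • z)) < 1 := hm h3
    rw [hftz t ht.1.le] at h4
    exact h4.le
  by_contra hne
  have hlt : H (f z) < 1 := lt_of_le_of_ne hle hne
  set K : Set (E n) := (fun s : ℝ => (s : ℂ) • f z) '' Icc 0 1 with hKdef
  have hKc : IsCompact K := by
    refine isCompact_Icc.image ?_
    exact (Complex.continuous_ofReal.smul continuous_const)
  have hKD : K ⊆ {z | H z < 1} := by
    rintro _ ⟨s, hs, rfl⟩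
    show H ((s : ℂ) • f z) < 1
    rw [hH, Complex.norm_real, Real.norm_eq_abs, sq_abs]
    rcases hH0 with h0 | h0
    · have h1 : s ^ 2 ≤ 1 := by nlinarith [hs.1, hs.2]
      nlinarith
    · have h1 : 0 ≤ s ^ 2 := sq_nonneg s
      nlinarith
  have hS := (hK K hKD hKc).isClosed
  have hz1 : Tendsto (fun t : ℝ => (t : ℂ) • z) (𝓝[<] 1) (𝓝 (((1 : ℝ) : ℂ) • z)) :=
    ((Complex.continuous_ofReal.smul continuous_const).tendsto 1).mono_left nhdsWithin_le_nhds
  have hmem : ((1 : ℝ) : ℂ) • z ∈ {z | H z < 1} ∩ f ⁻¹' K := by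
    refine hS.mem_of_tendsto hz1 ?_
    have h2 : ∀ᶠ t : ℝ in 𝓝[<] 1, t ∈ Ioo (0 : ℝ) 1 := Ioo_mem_nhdsLT one_pos
    filter_upwards [h2] with t ht
    refine ⟨?_, ?_⟩
    · show H ((t : ℂ) • z) < 1
      rw [htz t ht.1.le]
      nlinarith [ht.1, ht.2]
    · show f ((t : ℂ) • z) ∈ K
      refine ⟨t ^ d, ⟨pow_nonneg ht.1.le d, pow_le_one₀ ht.1.le ht.2.le⟩, ?_⟩
      rw [hom]
      push_cast
      rfl
  have h5 : H (((1 : ℝ) : ℂ) • z) < 1 := hmem.1
  rw [htz 1 zero_le_one, one_pow] at h5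
  exact lt_irrefl _ h5

theorem GPR_thm : GPRStmt := by
  intro n d f H hn hd hcd hom hc2 hpos hH hm hK
  have hH00 : H 0 = 0 := by
    have h := hH 0 0
    rw [zero_smul, norm_zero] at h
    simpa using h
  have key : ∀ z : E n, z ≠ 0 → H (f z) = H z ^ d := by
    intro z hz
    have hp := hpos z hz
    set r : ℝ := √(H z) with hr
    have hr0 : 0 < r := Real.sqrt_pos.2 hp
    have hr2 : r ^ 2 = H z := Real.sq_sqrt hp.le
    have hrc : (r : ℂ) ≠ 0 := by exact_mod_cast hr0.ne'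
    have hz' : z = (r : ℂ) • ((r : ℂ)⁻¹ • z) := by
      rw [smul_smul, mul_inv_cancel₀ hrc, one_smul]
    have h1 : H ((r : ℂ)⁻¹ • z) = 1 := by
      rw [hH, norm_inv, Complex.norm_real, Real.norm_eq_abs, abs_of_pos hr0, inv_pow, hr2,
        inv_mul_cancel₀ hp.ne']
    have h2 := gpr_one hom hH hm hK _ h1
    rw [hz', hom, hH, h2, mul_one, norm_pow, Complex.norm_real, Real.norm_eq_abs,
      abs_of_pos hr0, hH, h1, mul_one, Complex.norm_real, Real.norm_eq_abs, abs_of_pos hr0,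
      ← pow_mul, ← pow_mul, mul_comm]
  refine ⟨hn, hd, hcd, hom, ?_, ?_, ?_, ?_⟩
  · intro z hz h0
    have h1 := key z hz
    rw [h0, hH00] at h1
    exact (pow_pos (hpos z hz) d).ne h1
  · exact hc2.log fun z hz => (hpos z hz).ne'
  · intro c z hc hz
    show Real.log (H (c • z)) = Real.log (H z) + 2 * Real.log ‖c‖
    rw [hH, Real.log_mul (pow_pos (norm_pos_iff.2 hc) 2).ne' (hpos z hz).ne', Real.log_pow]
    push_cast
    ring
  · intro z hz
    show Real.log (H (f z)) = d * Real.log (H z)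
    rw [key z hz, Real.log_pow]

end Pool.CTG
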